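import Pool.Agent.Helper46.Tor.Fin3

set_option autoImplicit false

namespace Pool.Agent.Results.MP_6dc258_pr.TorusVariance

open MeasureTheory ProbabilityTheory Filter Topology
open scoped NNReal ENNReal
open Pool.Agent.Helper46.Tor

/-- with a finite second moment of the weights, `T n` is square integrable -/
theorem memLp_T (n : ℕ) [NeZero n] (F : Measure ℝ≥0) [IsProbabilityMeasure F]
    (h2 : ∫⁻ x, (x : ℝ≥0∞) ^ 2 ∂F ≠ ∞) :
    MemLp (T n) 2 (Measure.pi fun _ : Sym2 (ZMod n × ZMod n) => F) := by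
  set P := Measure.pi fun _ : Sym2 (ZMod n × ZMod n) => F with hP
  have hc : MemLp (fun x : ℝ≥0 => (x : ℝ)) 2 F := by
    rw [memLp_two_iff_integrable_sq (by fun_prop)]
    refine ⟨by fun_prop, ?_⟩
    rw [hasFiniteIntegral_iff_enorm]
    refine lt_of_le_of_lt (le_of_eq ?_) (lt_top_iff_ne_top.mpr h2)
    apply lintegral_congr
    intro x
    rw [enorm_pow]
    congr 1
    exact (Real.enorm_eq_ofReal x.2).trans ENNReal.ofReal_coe_nnreal
  have he : ∀ e : Sym2 (ZMod n × ZMod n), MemLp (fun ω => ((ω e : ℝ≥0) : ℝ)) 2 P := by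
    intro e
    have hmp : MeasurePreserving (Function.eval e) P F := measurePreserving_eval _ e
    exact hc.comp_measurePreserving hmp
  have hl : ∀ l : List (Sym2 (ZMod n × ZMod n)),
      MemLp (fun ω => (l.map fun e => ((ω e : ℝ≥0) : ℝ)).sum) 2 P := by
    intro l
    induction l with
    | nil => simp
    | cons e l ih =>
      simp only [List.map_cons, List.sum_cons]
      exact (he e).add ih
  let g0 : Wind n := ⟨(0, List.replicate n 0), tot_horizontal n⟩
  refine (hl (edgesL n g0.1.1 g0.1.2)).mono (measurable_T n).aestronglyMeasurable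
    (Filter.Eventually.of_forall fun ω => ?_)
  have h1 := T_le n ω g0
  have h0 := T_nonneg n ω
  rw [Real.norm_of_nonneg h0]
  exact h1.trans (le_abs_self _)

theorem result (F : Measure ℝ≥0) [IsProbabilityMeasure F]
    (hmean : ∫⁻ x, (x : ℝ≥0∞) ∂F ≠ ∞)
    (hinf : ∀ r, F (Set.Iio r) = 0 → F {r} < 1 / 3) :
    (∀ θ : ℝ, θ < 1 / 2 → ∃ N : ℕ, ∀ n ≥ N, ∀ [NeZero n], ENNReal.ofReal (Real.log n ^ θ) ≤
      evariance (T n) (Measure.pi fun _ : Sym2 (ZMod n × ZMod n) => F)) ∧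
    Tendsto (fun n : ℕ => evariance (T (n + 1))
      (Measure.pi fun _ : Sym2 (ZMod (n + 1) × ZMod (n + 1)) => F)) atTop (𝓝 ∞) ∧
    (∫⁻ x, (x : ℝ≥0∞) ^ 2 ∂F ≠ ∞ → Tendsto (fun n : ℕ => variance (T (n + 1))
      (Measure.pi fun _ : Sym2 (ZMod (n + 1) × ZMod (n + 1)) => F)) atTop atTop) := by
  have h1 := variance_lower F hmean hinf
  have hlim : Tendsto (fun n : ℕ => Real.log ((n + 1 : ℕ) : ℝ) ^ (1 / 4 : ℝ)) atTop atTop :=
    (tendsto_rpow_atTop (by norm_num)).comp
      (Real.tendsto_log_atTop.comp (tendsto_natCast_atTop_atTop.comp (tendsto_add_atTop_nat 1)))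
  obtain ⟨N, hN⟩ := h1 (1 / 4) (by norm_num)
  refine ⟨h1, ?_, ?_⟩
  · have hlim2 : Tendsto (fun n : ℕ => ENNReal.ofReal (Real.log ((n + 1 : ℕ) : ℝ) ^ (1 / 4 : ℝ)))
        atTop (𝓝 ∞) := ENNReal.tendsto_ofReal_atTop.comp hlim
    refine tendsto_nhds_top_mono hlim2 ?_
    filter_upwards [eventually_ge_atTop N] with n hn
    exact hN (n + 1) (by omega)
  · intro h2
    refine tendsto_atTop_mono' _ ?_ hlim
    filter_upwards [eventually_ge_atTop N] with n hn
    have h3 := hN (n + 1) (by omega)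
    have h4 : evariance (T (n + 1))
        (Measure.pi fun _ : Sym2 (ZMod (n + 1) × ZMod (n + 1)) => F) ≠ ∞ :=
      (memLp_T (n + 1) F h2).evariance_lt_top.ne
    exact (ENNReal.ofReal_le_iff_le_toReal h4).mp h3

end Pool.Agent.Results.MP_6dc258_pr.TorusVariance
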